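import Pool.Agent.Lib.MP_adc574_ag_CA.SC

/-!
# Dense ordinary reduction of abelian covers of the projective line

`k` is a field of characteristic zero. `X` is an abelian cover of the projective line: the smooth projective curve
whose function field is generated by `x` and by elements `y_j`, `j < r`, with `y_j ^ m = ∏ i, (x - a i) ^ (e j i)`.
The hypothesis on `X`: every cyclic quotient cover of `X` has at most three branch points, or one of its branch
points is free from the others (after a Möbius transformation it is transcendental over a field which contains the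
others). The genus of `X`, the abelian group, the number and the types of the branch points are arbitrary.
-/

set_option autoImplicit false

namespace Pool.Agent.Results.MP_adc574_ag.AbelianCovers

open MPadcCA

universe u

/-- `s` is a closed point of `Spec A` with a finite residue field (the quotient map is `φ`) at which all the
covers have good reduction and are ordinary in the sense of Bloch and Kato. -/
def OrdinaryPoint {A : Type u} [CommRing A] {ι : Type} (c : ι → AbCover A) (s : PrimeSpectrum A) : Prop :=
  ∃ (E : Type u) (_ : Field E) (φ : A →+* E), Finite E ∧ Function.Surjective φ ∧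
    RingHom.ker φ = s.asIdeal ∧ OrdinaryAt c φ

private theorem dense_of {A : Type u} [CommRing A] {ι : Type} [Finite ι] (c : ι → AbCover A)
    (hc : ∀ l, (c l).Ok) (h : DenseOrdinaryReduction c) : Dense {s : PrimeSpectrum A | OrdinaryPoint c s} := by
  classical
  have := Fintype.ofFinite ι
  rw [PrimeSpectrum.isTopologicalBasis_basic_opens.dense_iff]
  rintro _ ⟨b, rfl⟩ ⟨s, hs⟩
  have hb : b ≠ 0 := by
    rintro rfl
    exact hs s.asIdeal.zero_mem
  obtain ⟨p₀, hp₀⟩ := h b hb
  have he : ∏ l, (c l).m ≠ 0 := by
    rw [Finset.prod_ne_zero_iff]
    intro l _
    have := (hc l).two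
    omega
  obtain ⟨p, hp, hlt, hmod⟩ := Nat.exists_prime_gt_modEq_one p₀ he
  obtain ⟨E, i, φ, hfin, hch, hsurj, hφb, hl⟩ := hp₀ p hp hlt
    (fun l => hmod.of_dvd (Finset.dvd_prod_of_mem (fun l => (c l).m) (Finset.mem_univ l)))
  refine ⟨⟨RingHom.ker φ, RingHom.ker_isPrime φ⟩, ?_, E, i, φ, hfin, hsurj, rfl, hl⟩
  exact fun hbφ => hφb ((RingHom.mem_ker).1 hbφ)

/-- For finitely many such covers and every finitely generated subring `A` of `k` which contains their branch
points, the closed points `s` of `Spec A` such that the fibres `X_s` are smooth and ordinary in the sense of Bloch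
and Kato are dense in `Spec A`; more precisely, for every `b ≠ 0` in `A` and all large primes `p` which are `1`
modulo the exponents `m`, there is one of residue characteristic `p` with `b ≠ 0` at `s`. -/
theorem result {k : Type u} [Field k] [CharZero k] (A : Subalgebra ℤ k) (hA : A.FG) {ι : Type}
    [Finite ι] (c : ι → AbCover A) (hc : ∀ l, (c l).Ok)
    (hfree : ∀ l, ((c l).map (Subtype.val : A → k)).FewOrFree) :
    Dense {s : PrimeSpectrum A | OrdinaryPoint c s} ∧ DenseOrdinaryReduction c :=
  ⟨dense_of c hc (dense_ordinary' A hA c hc hfree), dense_ordinary' A hA c hc hfree⟩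

end Pool.Agent.Results.MP_adc574_ag.AbelianCovers
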