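import Pool.Agent.Lib.MP_adc574_ag_CC.S4

/-!
# Dense ordinary reduction of the cyclic covers of the projective line with a moving branch point

`k` is a field of characteristic zero, `κ` a subfield, `t` an element of `k` which is transcendental over `κ`,
`a 1, …, a n` different elements of `κ`, `a 0 = t`; `X` is the smooth projective curve
`y ^ e = (x - a 0) ^ (r 0) * … * (x - a n) ^ (r n)`, a cyclic cover of degree `e` of the projective line with the
branch points `t, a 1, …, a n`, which is totally ramified over `t`: `0 < r i < e`, `r 0` is prime to `e`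
(and `e` divides the sum of the `r i`: infinity is not a branch point).
-/

set_option autoImplicit false

namespace Pool.Agent.Results.MP_adc574_ag.CyclicCovers

open MPadcCC

universe u

/-- `s` is a closed point of `Spec A` with a finite residue field (the quotient map is `φ`) at which all the
covers have good reduction (the degrees are not divisible by the residue characteristic and the branch points stay
different) and are ordinary in the sense of Bloch and Kato. -/
def OrdinaryPoint {A : Type u} [CommRing A] {ι : Type} (c : ι → Cover A) (s : PrimeSpectrum A) : Prop :=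
  ∃ (E : Type u) (_ : Field E) (φ : A →+* E), Finite E ∧ Function.Surjective φ ∧
    RingHom.ker φ = s.asIdeal ∧ ∀ l, ((c l).e : E) ≠ 0 ∧ Function.Injective ((c l).map φ).a ∧
      ((c l).map φ).IsOrdinary

private theorem dense_of {A : Type u} [CommRing A] {ι : Type} [Finite ι] (c : ι → Cover A)
    (hc : ∀ l, (c l).Ok) (h : DenseOrdinaryReduction c) : Dense {s : PrimeSpectrum A | OrdinaryPoint c s} := by
  classical
  have := Fintype.ofFinite ι
  rw [PrimeSpectrum.isTopologicalBasis_basic_opens.dense_iff]
  rintro _ ⟨b, rfl⟩ ⟨s, hs⟩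
  have hb : b ≠ 0 := by
    rintro rfl
    exact hs s.asIdeal.zero_mem
  obtain ⟨p₀, hp₀⟩ := h b hb
  have he : ∏ l, (c l).e ≠ 0 := by
    rw [Finset.prod_ne_zero_iff]
    intro l _
    have := (hc l).two
    omega
  obtain ⟨p, hp, hlt, hmod⟩ := Nat.exists_prime_gt_modEq_one p₀ he
  obtain ⟨E, i, φ, hfin, hch, hsurj, hφb, hl⟩ := hp₀ p hp hlt
    (fun l => hmod.of_dvd (Finset.dvd_prod_of_mem (fun l => (c l).e) (Finset.mem_univ l)))
  have hmod' : ∀ l, p ≡ 1 [MOD (c l).e] := fun l =>
    hmod.of_dvd (Finset.dvd_prod_of_mem (fun l => (c l).e) (Finset.mem_univ l))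
  refine ⟨⟨RingHom.ker φ, RingHom.ker_isPrime φ⟩, ?_, E, i, φ, hfin, hsurj, rfl, fun l => ⟨?_, hl l⟩⟩
  · exact fun hbφ => hφb ((RingHom.mem_ker).1 hbφ)
  · intro h0
    have h1 : p ∣ (c l).e := (CharP.cast_eq_zero_iff E p _).1 h0
    have h2 : (c l).e ∣ p - 1 := (Nat.modEq_iff_dvd' hp.one_lt.le).1 (hmod' l).symm
    have h3 : p ∣ p - 1 := h1.trans h2
    have h4 := hp.two_le
    have h5 := Nat.le_of_dvd (by omega) h3
    omega

/-- For finitely many such covers (with the same `t`), and every finitely generated subring `A` of `k` which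
contains the branch points, the closed points `s` of `Spec A` such that the fibres `X_s` are smooth and ordinary in
the sense of Bloch and Kato are dense in `Spec A`; more precisely, for every `b ≠ 0` in `A` and all large primes
`p` which are `1` modulo the degrees, there is one of residue characteristic `p` with `b ≠ 0` at `s`. -/
theorem result {k : Type u} [Field k] [CharZero k] (κ : Subfield k) (A : Subalgebra ℤ k)
    (hA : A.FG) (t : A) (ht : Transcendental κ (t : k)) {ι : Type} [Finite ι] (c : ι → Cover A)
    (hc : ∀ l, (c l).Ok) (h0 : ∀ l, (c l).a 0 = t)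
    (h1 : ∀ l i, i ≠ 0 → (((c l).a i : A) : k) ∈ κ) :
    Dense {s : PrimeSpectrum A | OrdinaryPoint c s} ∧ DenseOrdinaryReduction c :=
  ⟨dense_of c hc (dense_ordinary κ A hA t ht c hc h0 h1), dense_ordinary κ A hA t ht c hc h0 h1⟩

end Pool.Agent.Results.MP_adc574_ag.CyclicCovers
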