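import Pool.Agent.Lib.MP_adc574_ag_GP.BrG

set_option autoImplicit false

namespace Pool.Agent.Results.MP_adc574_ag.GeneralPosition

open OrdRed

universe u

/-- Let `A` be a finitely generated subring of the algebraically closed field `k` of characteristic `0`, `I` a homogeneous
ideal over `A`, `X` the projective scheme with the ideal `I` over `k`. Assume that `X` is smooth and, with weights `w l` of
the coordinates in a finite abelian group `M` (no condition for `M = 0`), in general position. Then for every `b ≠ 0` in
`A` and every large prime `p` with `dim F^i H^m_dR(X)_(p μ) = dim F^i H^m_dR(X)_μ` for all `m`, `i`, `μ` (every large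
prime for `M = 0`) there is a closed point of `Spec A` of characteristic `p`, outside of `b = 0`, such that the
fibre of the model of `X` is smooth and ordinary, and every irreducible component of `Spec A/p` has a nonempty open
subset such that this holds at all its closed points. -/
theorem result {k : Type u} [Field k] [IsAlgClosed k] [CharZero k] (A : Subalgebra ℤ k) (hA : A.FG) {n : ℕ}
    (I : Ideal (MvPolynomial (Fin n) A)) (hI : Homogeneous I) (hs : SmoothProj (change I (algebraMap A k)))
    {M : Type} [AddCommGroup M] [Finite M] (w : Fin n → M) (hw : WeightHomogeneous (change I (algebraMap A k)) w)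
    (hg : General (proj (change I (algebraMap A k))) (part (change I (algebraMap A k)) w)) (b : A) (hb : b ≠ 0) :
    ∃ p₀ : ℕ, ∀ p : ℕ, p₀ ≤ p → p.Prime →
      (∀ (m i : ℕ) (μ : M),
        hodgeDim (change I (algebraMap A k)) w m i (p • μ) = hodgeDim (change I (algebraMap A k)) w m i μ) →
      HasOrdinaryFibre I b p ∧ ∀ 𝔓 ∈ (Ideal.span {(p : A)}).minimalPrimes, ∃ f ∉ 𝔓, ∀ 𝔫 : Ideal A, 𝔫.IsMaximal →
        𝔓 ≤ 𝔫 → f ∉ 𝔫 →
          SmoothProj (change I (Ideal.Quotient.mk 𝔫)) ∧ (proj (change I (Ideal.Quotient.mk 𝔫))).Ordinary :=
  OrdRed.main_open A hA I hI hs w hw hg b hb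

end Pool.Agent.Results.MP_adc574_ag.GeneralPosition
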