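import Mathlib
import Pool.Agent.Lib.MP_adc574_ag_G2.Core6
import Pool.Agent.Lib.MP_adc574_ag.Trdeg
import Pool.Agent.Lib.MP_adc574_ag.CartierW

/-!
# Dense ordinary reduction for hyperelliptic curves of codimension at most four in moduli

`a_1, …, a_n` are distinct elements of a finitely generated subring `A` of a field `k` of
characteristic zero, and the field generated over `ℚ` by the ratios of differences of the `a_i`
(that is, by the cross ratios of `a_1, …, a_n, ∞`) has transcendence degree at least `n - 6`.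
Then the closed points `s` of `Spec A` such that *all* hyperelliptic curves
`y² = ∏_{i ∈ I} (x - a_i)`, `I ⊆ {1, …, n}`, have good ordinary reduction at `s` are dense.
-/

set_option autoImplicit false

namespace Pool.Agent.Results.MP_adc574_ag.HyperellipticCodimFour

open Polynomial MPadc574 MPadc574Q MPadc574G

/-- The matrix of the Cartier operator (Cartier-Manin matrix) of the curve `y² = f(x)` of genus
`g` in characteristic `p`: its entry `(i, j)`, for `1 ≤ i, j ≤ g`, is the coefficient of
`x ^ (i p - j)` in `f ^ ((p - 1) / 2)`. (Indices are shifted to start from `0`.) -/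
noncomputable def cartierManin (p g : ℕ) {R : Type*} [CommRing R] (f : R[X]) : Matrix (Fin g) (Fin g) R :=
  fun i j => (f ^ ((p - 1) / 2)).coeff ((i.1 + 1) * p - (j.1 + 1))

/-- The curve `y² = f(x)`, of genus `g = ⌊(deg f - 1) / 2⌋`, is ordinary: its Cartier-Manin
matrix is invertible, and no nonzero regular differential is exact. The regular differentials
are the `q dx / y` with `deg q < g`, and `q dx / y` is exact if and only if it is
`d (y N / D)` for polynomials `N` and `D ≠ 0`, that is,
`2 D² q = 2 f (N' D - N D') + f' N D`. -/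
structure IsOrdinary (p : ℕ) {R : Type*} [CommRing R] (f : R[X]) : Prop where
  det_ne_zero : (cartierManin p ((f.natDegree - 1) / 2) f).det ≠ 0
  exact_eq_zero : ∀ q N D : R[X], q.degree < ((f.natDegree - 1) / 2 : ℕ) → D ≠ 0 →
    2 * D ^ 2 * q = 2 * f * (derivative N * D - N * derivative D) + derivative f * N * D → q = 0

/-- The subfield of `k` generated by the ratios `(a_i - a_j) / (a_l - a_m)`. -/
noncomputable def ratioField {k : Type*} [Field k] [CharZero k] {n : ℕ} (a : Fin n → k) :
    IntermediateField ℚ k :=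
  IntermediateField.adjoin ℚ {x | ∃ i j l m, x = (a i - a j) / (a l - a m)}

theorem result {k : Type*} [Field k] [CharZero k] (A : Subalgebra ℤ k) (hA : A.FG) {n : ℕ}
    (a : Fin n → A) (ha : Function.Injective a)
    (htr : (n : Cardinal) ≤ Algebra.trdeg ℚ (ratioField (fun i => (a i : k))) + 6) :
    Dense {s : PrimeSpectrum A | s.asIdeal.IsMaximal ∧ ∃ p : ℕ, p.Prime ∧ p ≠ 2 ∧
      CharP (A ⧸ s.asIdeal) p ∧
      Function.Injective (fun i => Ideal.Quotient.mk s.asIdeal (a i)) ∧
      ∀ I : Finset (Fin n),
        IsOrdinary p (∏ i ∈ I, (X - C (Ideal.Quotient.mk s.asIdeal (a i))))} := by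
  classical
  have hft : Algebra.FiniteType ℤ A := A.fg_iff_finiteType.1 hA
  have := isJacobsonRing_int
  have hjac : IsJacobsonRing A := isJacobsonRing_of_finiteType (A := ℤ)
  have hAK : Function.Injective (algebraMap A k) := Subtype.val_injective
  -- algebraically independent ratios
  set S : Set k := {x | ∃ i j l m, x = ((a i : k) - a j) / ((a l : k) - a m)} with hS
  have hSfin : S.Finite := by
    have : S = Set.range (fun z : Fin n × Fin n × Fin n × Fin n =>
        ((a z.1 : k) - a z.2.1) / ((a z.2.2.1 : k) - a z.2.2.2)) := by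
      ext x
      constructor
      · rintro ⟨i, j, l, m, rfl⟩
        exact ⟨(i, j, l, m), rfl⟩
      · rintro ⟨⟨i, j, l, m⟩, rfl⟩
        exact ⟨i, j, l, m, rfl⟩
    rw [this]
    exact Set.finite_range _
  obtain ⟨r, hr, x, hxind, hxS⟩ := exists_independentW S hSfin n 6 htr
  have hx : ∀ t, ∃ i j l m, i ≠ j ∧ x t =
      (algebraMap A k (a l) - algebraMap A k (a m)) /
        (algebraMap A k (a i) - algebraMap A k (a j)) := by
    intro t
    obtain ⟨l, m, i, j, h⟩ := hxS t
    refine ⟨i, j, l, m, ?_, h⟩
    rintro rfl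
    apply hxind.ne_zero t
    rw [h, sub_self, div_zero]
  rw [PrimeSpectrum.isTopologicalBasis_basic_opens.dense_iff]
  rintro _ ⟨b, rfl⟩ hne
  have hb : b ≠ 0 := by
    rintro rfl
    simp at hne
  set P : A := ∏ z ∈ (Finset.univ : Finset (Fin n)).offDiag, (a z.1 - a z.2) with hP
  have hP0 : P ≠ 0 := by
    rw [hP, Finset.prod_ne_zero_iff]
    intro z hz
    rw [Finset.mem_offDiag] at hz
    exact sub_ne_zero.2 (fun h => hz.2.2 (ha h))
  obtain ⟨p, ε, hp, hnp, hpε, κ, hκ, hcharp, φ, hφ, hcore⟩ :=
    core6 (K := AlgebraicClosure k) (algebraMap k (AlgebraicClosure k)) A hA a ha hr x hxind hx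
      (b * P) (mul_ne_zero hb hP0) n
  have hpf : Fact p.Prime := ⟨hp⟩
  have hp2 : p ≠ 2 := by omega
  have hε : ε = (p - 1) / 2 := by omega
  have hodd : Odd p := hp.odd_of_ne_two hp2
  -- injectivity from the nonvanishing of `P`
  have hinj : ∀ {R : Type _} [CommRing R] (θ : A →+* R), θ P ≠ 0 →
      ∀ i j, θ (a i) = θ (a j) → i = j := by
    intro R _ θ hθ i j hij
    by_contra hne'
    apply hθ
    have hmem : (i, j) ∈ (Finset.univ : Finset (Fin n)).offDiag :=
      Finset.mem_offDiag.2 ⟨Finset.mem_univ _, Finset.mem_univ _, hne'⟩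
    rw [hP, map_prod]
    apply Finset.prod_eq_zero hmem
    rw [map_sub, hij, sub_self]
  have hφP : φ P ≠ 0 := by
    intro h
    apply hφ
    rw [map_mul, h, mul_zero]
  set F : Finset (Fin n) → A[X] := fun I => ∏ i ∈ I, (X - C (a i)) with hF
  have hFmap : ∀ {R : Type _} [CommRing R] (θ : A →+* R) (I : Finset (Fin n)),
      (F I).map θ = ∏ i ∈ I, (X - C (θ (a i))) := by
    intro R _ θ I
    rw [hF, Polynomial.map_prod]
    apply Finset.prod_congr rfl
    intro i _
    rw [Polynomial.map_sub, map_X, map_C]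
  set d : A := ∏ I : Finset (Fin n), (cmMatrix p ((I.card - 1) / 2) (F I)).det with hd
  have hdeg : ∀ {R : Type _} [CommRing R] [Nontrivial R] (c : Fin n → R) (I : Finset (Fin n)),
      (∏ i ∈ I, (X - C (c i))).natDegree = I.card := by
    intro R _ _ c I
    rw [natDegree_prod_of_monic _ _ (fun i _ => monic_X_sub_C _)]
    simp
  have hcard : ∀ I : Finset (Fin n), I.card ≤ n := by
    intro I
    have := Finset.card_le_univ I
    rwa [Fintype.card_fin] at this
  have hφd : φ d ≠ 0 := by
    rw [hd, map_prod, Finset.prod_ne_zero_iff]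
    intro I _ h0
    rw [← det_cmMatrix_map, hFmap] at h0
    have hg : (I.card - 1) / 2 ≤ p := by
      have := hcard I
      omega
    obtain ⟨q, hq0, hqdeg, hq⟩ := exists_cop_of_det_eq_zero hodd hg
      (∏ i ∈ I, (X - C (φ (a i)))) (hdeg _ I).le (by omega) h0
    refine hcore I (by omega) (fun i _ j _ h => hinj φ hφP i j h) (fun _ => 1)
      (fun _ _ => by norm_num) q hq0 (by
        rw [Finset.sum_const, smul_eq_mul, mul_one]
        omega) ?_
    rw [← hq]
    congr 1
    unfold wpoly
    rw [← Finset.prod_pow]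
    apply congrArg (· * q)
    apply Finset.prod_congr rfl
    intro i _
    rw [one_mul, hε]
  -- a maximal ideal above the kernel
  have hker : (RingHom.ker φ).IsPrime := RingHom.ker_isPrime φ
  have hcd : b * P * d ∉ RingHom.ker φ := by
    rw [RingHom.mem_ker, map_mul]
    exact mul_ne_zero hφ hφd
  have hjac2 : (RingHom.ker φ).jacobson = RingHom.ker φ := hjac.out hker.isRadical
  rw [← hjac2, Ideal.jacobson, Ideal.mem_sInf] at hcd
  push Not at hcd
  obtain ⟨M, ⟨hkM, hM⟩, hMcd⟩ := hcd
  refine ⟨⟨M, hM.isPrime⟩, ?_, hM, p, hp, hp2, ?_, ?_, ?_⟩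
  · change b ∉ M
    intro h
    exact hMcd (M.mul_mem_right _ (M.mul_mem_right _ h))
  · -- the characteristic
    let : Field (A ⧸ M) := Ideal.Quotient.field M
    apply charP_of_cast_eq_zero hp
    rw [← map_natCast (Ideal.Quotient.mk M), Ideal.Quotient.eq_zero_iff_mem]
    apply hkM
    rw [RingHom.mem_ker, map_natCast]
    exact CharP.cast_eq_zero κ p
  · intro i j h
    apply hinj (Ideal.Quotient.mk M) ?_ i j h
    intro h0
    rw [Ideal.Quotient.eq_zero_iff_mem] at h0
    exact hMcd (M.mul_mem_right _ (M.mul_mem_left _ h0))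
  · intro I
    let : Field (A ⧸ M) := Ideal.Quotient.field M
    have hcharM : CharP (A ⧸ M) p := by
      apply charP_of_cast_eq_zero hp
      rw [← map_natCast (Ideal.Quotient.mk M), Ideal.Quotient.eq_zero_iff_mem]
      apply hkM
      rw [RingHom.mem_ker, map_natCast]
      exact CharP.cast_eq_zero κ p
    have hnd := hdeg (fun i => Ideal.Quotient.mk M (a i)) I
    have hdet : (cmMatrix p ((I.card - 1) / 2)
        (∏ i ∈ I, (X - C (Ideal.Quotient.mk M (a i))))).det ≠ 0 := by
      rw [← hFmap (Ideal.Quotient.mk M) I, det_cmMatrix_map]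
      intro h0
      rw [Ideal.Quotient.eq_zero_iff_mem] at h0
      apply hMcd
      apply M.mul_mem_left
      rw [hd, ← Finset.mul_prod_erase _ _ (Finset.mem_univ I)]
      exact M.mul_mem_right _ h0
    have hg : (I.card - 1) / 2 ≤ p := by
      have := hcard I
      omega
    constructor
    · rw [hnd]
      exact hdet
    · intro q N D hq hD hex
      rw [hnd] at hq
      exact eq_zero_of_cop_of_det_ne_zero hp.pos hg _ hdet hq (cop_of_exact hp2 hD hex)

end Pool.Agent.Results.MP_adc574_ag.HyperellipticCodimFour
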