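import Pool.Agent.Lib.MP_adc574_ag_PZ.FinH
import Pool.Agent.Lib.MP_adc574_ag_OH.T4

/-!
# Ordinary reduction of hypersurfaces of odd dimension over number fields

Let `K` be a number field with the ring of integers `𝓞 K`, `m ≥ 3` odd. A hypersurface of degree `d` in the projective space
of dimension `m - 1` is given by a form of degree `d` in the variables `X i`, `i : Fin m`; its dimension `m - 2` is odd. We
consider a linear system: the hypersurfaces `F + ∑ c_e x ^ e = 0`, where `F` is a fixed form and the coefficients `c_e` of the
monomials in a set `S` vary in `𝓞 K`. Let `X i₀ = 0` be the hyperplane at infinity. The coefficient of `X i₀ ^ d` varies,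
i.e. with `f = 0` the system contains all `f + c = 0` (affine equations), and (`MPadcPZ.Hyper.IsMorseSystem`) a member of the
system over the algebraic closure has an affine equation `g = 0` such that the section at infinity is smooth and either `g`
is a Morse function (nondegenerate critical points, different critical values) or the coefficients of the linear terms of
the affine equation vary, too.

For `d ≥ 3`, `δ > 0` and `B` the following is true for all large `z` (depending on `K`, `m`, `d`, `δ`, `B` only). Let the
coefficients of `F` and the elements of the finite set `T ⊂ 𝓞 K` have house at most `z ^ B` (the house of an algebraic number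
is the largest absolute value of its conjugates). For all but at most `z * #T ^ (#S - 1)` of the `#T ^ #S` families of
coefficients `c_e ∈ T` the hypersurface has good reduction which is ordinary in the sense of Bloch and Kato
(`MPadcPZ.Hyper.OrdinaryReductionAt`: `H ^ j (X, B Ω ^ i) = 0` for all `i`, `j`, by the Čech complex) at a set of maximal
ideals `𝔭` of norm at most `z` whose share among all of them, measured with the weights `log N𝔭 / N𝔭` (`MPadcOA.wtK`), is at
least `1 - δ`.

If `S` is the set of all monomials of degree `d` and `F = 0`, these are all hypersurfaces of degree `d` over `𝓞 K`. If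
`S = {X i₀ ^ d}`, these are the `f = c` for an arbitrary Morse polynomial `f` with smooth section at infinity, and all but at
most `z` of ALL `c ∈ 𝓞 K` of house at most `z ^ B` have the property. For `m = 3` these are plane curves.
-/

set_option autoImplicit false

namespace Pool.Agent.Results.MP_adc574_ag.OddDimension

open MvPolynomial NumberField MPadcPZ.Hyper MPadcOA

theorem result {m d : ℕ} (hm : 3 ≤ m) (ho : Odd m) (hd : 3 ≤ d) (i₀ : Fin m) (K : Type) [Field K] [NumberField K]
    (δ : ℝ) (hδ : 0 < δ) (B : ℕ) :
    ∃ z₀ : ℕ, ∀ z : ℕ, z₀ ≤ z → ∀ (F : MvPolynomial (Fin m) (𝓞 K)) (S : Finset (Fin m →₀ ℕ)),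
      IsMorseSystem i₀ d F S → (∀ e, house ((coeff e F : 𝓞 K) : K) ≤ (z : ℝ) ^ B) →
      ∀ T : Finset (𝓞 K), (∀ t ∈ T, house (t : K) ≤ (z : ℝ) ^ B) →
        {c : S → 𝓞 K | (∀ e, c e ∈ T) ∧
          wtK K (OrdinaryReductionAt (member F S c)) z < (1 - δ) * wtK K (fun _ => True) z}.ncard ≤
            z * T.card ^ (S.card - 1) :=
  hyper_systems i₀ (by omega) (fun ε hε => by
    obtain ⟨p₀, h⟩ := MPadcOH.fewM_odd hm ho hd i₀ ε hε
    exact ⟨p₀, fun p hp hle E _ _ _ G hG _ hM => h p hp hle E G hG ⟨hM.inf, hM.lef⟩⟩) K δ hδ B

end Pool.Agent.Results.MP_adc574_ag.OddDimension
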