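import Pool.Agent.Lib.MP_adc574_ag_LS.L6

/-!
# Ordinary reduction of hyperelliptic curves over number fields

Let `n ≥ 3`, `1 ≤ r ≤ n` and `m` be given. There are constants `A ≥ 1` and `0 < κ < 1` such that for every number field
`K` of degree `m`, every real `H ≥ 2`, every polynomial `f` of degree `n - r` over the ring of integers `𝓞 K`, squarefree
over `K`, with coefficients of house at most `H` (the house of an algebraic number is the largest absolute value of its
conjugates), every finite set `T ⊂ 𝓞 K` of elements of house at most `H` and every `z`: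

consider the `#T ^ r` monic polynomials `h` of degree `r` over `𝓞 K` with coefficients in `T`. For all but at most
`z ^ (1 - κ) * #T ^ (r - 1)` of them the hyperelliptic curve `y ^ 2 = f(x) * h(x)` has the following property: for EVERY
`y` with `(A log H) ^ A ≤ y ≤ z`, it has good reduction which is ordinary in the sense of Bloch and Kato
(`MPadcOA.OrdinaryAtPrime`) at all but at most `y ^ (1 - κ)` of the maximal ideals of norm at most `y`
(`MPadcOA.nK` is the number of the maximal ideals of norm at most `y` with a property).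

For `r = n` the curves are `y ^ 2 = a * h(x)`, `a` fixed, `h` any monic polynomial of degree `n` (every hyperelliptic
curve over `K` has such an equation). For `r = 1` they are `y ^ 2 = (x - t) * f(x)`, and at most `z ^ (1 - κ)` of ALL
`t ∈ 𝓞 K` of house at most `H` are exceptional: with `z` a power of `log H`, all but `(log H) ^ C` of them.
-/

set_option autoImplicit false

namespace Pool.Agent.Results.MP_adc574_ag.OrdinaryNumberFields

open Polynomial NumberField MPadcOA

theorem result (n r m : ℕ) (hn : 3 ≤ n) (hr : 0 < r) (hrn : r ≤ n) : ∃ A κ : ℝ, 1 ≤ A ∧ 0 < κ ∧ κ < 1 ∧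
    ∀ (K : Type) [Field K] [NumberField K], Module.finrank ℚ K = m → ∀ H : ℝ, 2 ≤ H →
      ∀ f : (𝓞 K)[X], f.natDegree + r = n → Squarefree (f.map (algebraMap (𝓞 K) K)) →
        (∀ i, house (f.coeff i : K) ≤ H) → ∀ T : Finset (𝓞 K), (∀ t ∈ T, house (t : K) ≤ H) → ∀ z : ℕ,
          {h : (𝓞 K)[X] | h.Monic ∧ h.natDegree = r ∧ (∀ i < r, h.coeff i ∈ T) ∧
              ∃ y : ℕ, (A * Real.log H) ^ A ≤ y ∧ y ≤ z ∧
                (y : ℝ) ^ (1 - κ) < nK K (fun 𝔭 => ¬ OrdinaryAtPrime (f * h) 𝔭) y}.Finite ∧
          ({h : (𝓞 K)[X] | h.Monic ∧ h.natDegree = r ∧ (∀ i < r, h.coeff i ∈ T) ∧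
              ∃ y : ℕ, (A * Real.log H) ^ A ≤ y ∧ y ≤ z ∧
                (y : ℝ) ^ (1 - κ) < nK K (fun 𝔭 => ¬ OrdinaryAtPrime (f * h) 𝔭) y}.ncard : ℝ) ≤
            (z : ℝ) ^ (1 - κ) * (T.card : ℝ) ^ (r - 1) :=
  numberField_sieve n r m hn hr hrn

end Pool.Agent.Results.MP_adc574_ag.OrdinaryNumberFields
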