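import Pool.Agent.Lib.MP_adc574_ag_PZ.Fin

/-!
# Ordinary reduction of plane curves over number fields

Let `K` be a number field with the ring of integers `𝓞 K`. A plane curve of degree `d` is given by a form of degree `d` in
`x = X 0`, `y = X 1`, `z = X 2`. We consider a linear system: the curves `F + ∑ c_e x ^ e = 0`, where `F` is a fixed form
and the coefficients `c_e` of the monomials in a set `S` vary in `𝓞 K`. The coefficient of `z ^ d` varies, i.e. with
`f(x, y) = 0` the system contains all `f(x, y) + c = 0`, and (`MPadcPZ.IsMorseSystem`) a member of the system over the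
algebraic closure has an affine equation `g(x, y) = 0` such that the form of degree `d` of `g` is squarefree and contains
`y ^ d`, and either `g` is a Morse function (nondegenerate critical points, different critical values) or the coefficients
of `x` and `y` in the affine equation vary, too.

For `d ≥ 3`, `δ > 0` and `B` the following is true for all large `z` (depending on `K`, `d`, `δ`, `B` only). Let the
coefficients of `F` and the elements of the finite set `T ⊂ 𝓞 K` have house at most `z ^ B` (the house of an algebraic number
is the largest absolute value of its conjugates). For all but at most `z * #T ^ (#S - 1)` of the `#T ^ #S` families of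
coefficients `c_e ∈ T` the curve has good reduction which is ordinary in the sense of Bloch and Kato
(`MPadcPZ.OrdinaryReductionAt`) at a set of maximal ideals `𝔭` of norm at most `z` whose share among all of them, measured
with the weights `log N𝔭 / N𝔭` (`MPadcOA.wtK`), is at least `1 - δ`.

If `S` is the set of all monomials of degree `d` and `F = 0`, these are all plane curves of degree `d` over `𝓞 K`. If
`S = {z ^ d}`, these are the curves `f(x, y) = c` for an arbitrary Morse polynomial `f` with squarefree top form, and all but
at most `z` of ALL `c ∈ 𝓞 K` of house at most `z ^ B` have the property.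
-/

set_option autoImplicit false

namespace Pool.Agent.Results.MP_adc574_ag.PlaneCurves

open MvPolynomial NumberField MPadcPZ MPadcOA

theorem result {d : ℕ} (hd : 3 ≤ d) (K : Type) [Field K] [NumberField K] (δ : ℝ) (hδ : 0 < δ) (B : ℕ) :
    ∃ z₀ : ℕ, ∀ z : ℕ, z₀ ≤ z → ∀ (F : MvPolynomial (Fin 3) (𝓞 K)) (S : Finset (Fin 3 →₀ ℕ)), IsMorseSystem d F S →
      (∀ e, house ((coeff e F : 𝓞 K) : K) ≤ (z : ℝ) ^ B) →
      ∀ T : Finset (𝓞 K), (∀ t ∈ T, house (t : K) ≤ (z : ℝ) ^ B) →
        {c : S → 𝓞 K | (∀ e, c e ∈ T) ∧
          wtK K (OrdinaryReductionAt (member F S c)) z < (1 - δ) * wtK K (fun _ => True) z}.ncard ≤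
            z * T.card ^ (S.card - 1) :=
  plane_systems hd K δ hδ B

end Pool.Agent.Results.MP_adc574_ag.PlaneCurves
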