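import Pool.Agent.Lib.MP_adc574_ag_GP.BrF

set_option autoImplicit false

namespace Pool.Agent.Results.MP_adc574_ag.RelativePosition

open OrdRed

universe u

/-- The same for general position relative to `Y_j` (`GeneralRel`), which follows from `BigRel` and also holds for
generic hyperplane sections with finite monodromy. -/
theorem result_general {k : Type u} [Field k] [IsAlgClosed k] [CharZero k] (A : Subalgebra ℤ k) (hA : A.FG) {r : ℕ}
    {n : Fin r → ℕ} (I₀ I : ∀ j, Ideal (MvPolynomial (Fin (n j)) A)) (hle : ∀ j, I₀ j ≤ I j)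
    (hI₀ : ∀ j, Homogeneous (I₀ j)) (hI : ∀ j, Homogeneous (I j))
    (hs₀ : ∀ j, SmoothProj (change (I₀ j) (algebraMap A k))) (hs : ∀ j, SmoothProj (change (I j) (algebraMap A k)))
    {M : Type} [AddCommGroup M] [Finite M] (w : ∀ j, Fin (n j) → M)
    (hw₀ : ∀ j, WeightHomogeneous (change (I₀ j) (algebraMap A k)) (w j))
    (hw : ∀ j, WeightHomogeneous (change (I j) (algebraMap A k)) (w j))
    (hg : ∀ j, GeneralRel (proj (change (I j) (algebraMap A k))) (part (change (I j) (algebraMap A k)) (w j))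
      (image (change (I₀ j) (algebraMap A k)) (change (I j) (algebraMap A k)))) :
    ∃ a : A, a ≠ 0 ∧ ∃ p₀ : ℕ, ∀ p : ℕ, p₀ ≤ p → p.Prime →
      (∀ (j : Fin r) (m i : ℕ) (μ : M), hodgeDim (change (I j) (algebraMap A k)) (w j) m i (p • μ) =
        hodgeDim (change (I j) (algebraMap A k)) (w j) m i μ) →
      ∀ 𝔪 : Ideal A, 𝔪.IsMaximal → a ∉ 𝔪 → (∀ j, (proj (change (I₀ j) (Ideal.Quotient.mk 𝔪))).Ordinary) →
        ∀ 𝔓 ∈ (Ideal.span {(p : A)}).minimalPrimes, 𝔓 ≤ 𝔪 → ∃ f ∉ 𝔓, ∀ 𝔫 : Ideal A, 𝔫.IsMaximal → 𝔓 ≤ 𝔫 → f ∉ 𝔫 →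
          ∀ j, SmoothProj (change (I j) (Ideal.Quotient.mk 𝔫)) ∧ (proj (change (I j) (Ideal.Quotient.mk 𝔫))).Ordinary :=
  OrdRed.rel_final A hA I₀ I hle hI₀ hI hs₀ hs w hw₀ hw hg

/-- So Q1 for the `Y_j` implies Q1 for the `X_j`: if the closed points (of the characteristics allowed by the weights)
where all the `Y_j` are ordinary are dense, then those where all the `X_j` are ordinary are dense. -/
theorem dense {k : Type u} [Field k] [IsAlgClosed k] [CharZero k] (A : Subalgebra ℤ k) (hA : A.FG) {r : ℕ}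
    {n : Fin r → ℕ} (I₀ I : ∀ j, Ideal (MvPolynomial (Fin (n j)) A)) (hle : ∀ j, I₀ j ≤ I j)
    (hI₀ : ∀ j, Homogeneous (I₀ j)) (hI : ∀ j, Homogeneous (I j))
    (hs₀ : ∀ j, SmoothProj (change (I₀ j) (algebraMap A k))) (hs : ∀ j, SmoothProj (change (I j) (algebraMap A k)))
    {M : Type} [AddCommGroup M] [Finite M] (w : ∀ j, Fin (n j) → M)
    (hw₀ : ∀ j, WeightHomogeneous (change (I₀ j) (algebraMap A k)) (w j))
    (hw : ∀ j, WeightHomogeneous (change (I j) (algebraMap A k)) (w j))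
    (hg : ∀ j, GeneralRel (proj (change (I j) (algebraMap A k))) (part (change (I j) (algebraMap A k)) (w j))
      (image (change (I₀ j) (algebraMap A k)) (change (I j) (algebraMap A k))))
    (hY : ∀ b : A, b ≠ 0 → ∃ p : ℕ, p.Prime ∧
      (∀ (j : Fin r) (m i : ℕ) (μ : M), hodgeDim (change (I j) (algebraMap A k)) (w j) m i (p • μ) =
        hodgeDim (change (I j) (algebraMap A k)) (w j) m i μ) ∧
      ∃ 𝔪 : Ideal A, 𝔪.IsMaximal ∧ b ∉ 𝔪 ∧ (p : A) ∈ 𝔪 ∧ ∀ j, (proj (change (I₀ j) (Ideal.Quotient.mk 𝔪))).Ordinary)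
    (b : A) (hb : b ≠ 0) : ∃ 𝔪 : Ideal A, 𝔪.IsMaximal ∧ b ∉ 𝔪 ∧
      ∀ j, SmoothProj (change (I j) (Ideal.Quotient.mk 𝔪)) ∧ (proj (change (I j) (Ideal.Quotient.mk 𝔪))).Ordinary :=
  OrdRed.rel_dense A hA I₀ I hle hI₀ hI hs₀ hs w hw₀ hw hg hY b hb

/-- Let `A` be a finitely generated subring of the algebraically closed field `k` of characteristic `0`, `I₀ j ⊆ I j`
(`j < r`) homogeneous ideals over `A`, `X_j ⊆ Y_j` the projective schemes with the ideals `I j` and `I₀ j`. Assume that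
they are smooth over `k` and that, with weights `w j l` of the coordinates in a finite abelian group `M` (no condition
for `M = 0`), every `X_j` over `k` has big monodromy relative to the image of `H_dR(Y_j)` in `H_dR(X_j)` (`BigRel`).
Then there are `a ≠ 0` in `A` and `p₀` such that for all primes `p ≥ p₀` with
`dim F^i H^m_dR(X_j)_(p μ) = dim F^i H^m_dR(X_j)_μ` for all `j`, `m`, `i`, `μ` (all primes `p ≥ p₀` for `M = 0`): if at a
closed point `s` of `Spec A` of characteristic `p`, outside of `a = 0`, all the fibres of the `Y_j` are ordinary, then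
every irreducible component of `Spec A/p` through `s` has a nonempty open subset such that at all its closed points
all the fibres of the `X_j` are smooth and ordinary. -/
theorem result {k : Type u} [Field k] [IsAlgClosed k] [CharZero k] (A : Subalgebra ℤ k) (hA : A.FG) {r : ℕ}
    {n : Fin r → ℕ} (I₀ I : ∀ j, Ideal (MvPolynomial (Fin (n j)) A)) (hle : ∀ j, I₀ j ≤ I j)
    (hI₀ : ∀ j, Homogeneous (I₀ j)) (hI : ∀ j, Homogeneous (I j))
    (hs₀ : ∀ j, SmoothProj (change (I₀ j) (algebraMap A k))) (hs : ∀ j, SmoothProj (change (I j) (algebraMap A k)))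
    {M : Type} [AddCommGroup M] [Finite M] (w : ∀ j, Fin (n j) → M)
    (hw₀ : ∀ j, WeightHomogeneous (change (I₀ j) (algebraMap A k)) (w j))
    (hw : ∀ j, WeightHomogeneous (change (I j) (algebraMap A k)) (w j))
    (hg : ∀ j, BigRel (proj (change (I j) (algebraMap A k))) (part (change (I j) (algebraMap A k)) (w j))
      (image (change (I₀ j) (algebraMap A k)) (change (I j) (algebraMap A k)))) :
    ∃ a : A, a ≠ 0 ∧ ∃ p₀ : ℕ, ∀ p : ℕ, p₀ ≤ p → p.Prime →
      (∀ (j : Fin r) (m i : ℕ) (μ : M), hodgeDim (change (I j) (algebraMap A k)) (w j) m i (p • μ) =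
        hodgeDim (change (I j) (algebraMap A k)) (w j) m i μ) →
      ∀ 𝔪 : Ideal A, 𝔪.IsMaximal → a ∉ 𝔪 → (∀ j, (proj (change (I₀ j) (Ideal.Quotient.mk 𝔪))).Ordinary) →
        ∀ 𝔓 ∈ (Ideal.span {(p : A)}).minimalPrimes, 𝔓 ≤ 𝔪 → ∃ f ∉ 𝔓, ∀ 𝔫 : Ideal A, 𝔫.IsMaximal → 𝔓 ≤ 𝔫 → f ∉ 𝔫 →
          ∀ j, SmoothProj (change (I j) (Ideal.Quotient.mk 𝔫)) ∧ (proj (change (I j) (Ideal.Quotient.mk 𝔫))).Ordinary :=
  OrdRed.rel_big A hA I₀ I hle hI₀ hI hs₀ hs w hw₀ hw hg

end Pool.Agent.Results.MP_adc574_ag.RelativePosition
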